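import Pool.Agent.Helper54.FP.Inst

/-!
# Homomorphisms from the complement ring to iterated Laurent series
-/

set_option autoImplicit false

namespace Pool.Agent.Helper54.FP

theorem homInf_C {R : Type} [CommRing R] (r : R) :
    algebraMap (PowerSeries R) (LaurentSeries R) (PowerSeries.C r) = HahnSeries.C r := by
  rw [LaurentSeries.coe_algebraMap, HahnSeries.ofPowerSeries_C]

theorem homInf_X {R : Type} [CommRing R] :
    algebraMap (PowerSeries R) (LaurentSeries R) PowerSeries.X =
      (HahnSeries.single (1 : ℤ) (1 : R) : LaurentSeries R) := by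
  rw [LaurentSeries.coe_algebraMap, HahnSeries.ofPowerSeries_X]

theorem homInf_algInj {R : Type} [CommRing R] :
    Function.Injective (algebraMap (PowerSeries R) (LaurentSeries R)) := by
  rw [LaurentSeries.coe_algebraMap]
  exact HahnSeries.ofPowerSeries_injective

section

variable {k : Type} [Field k]

/-- `k[w]⟦t⟧ → k((t))((x))`, given the image of `w` in `k⟦x⟧⟦t⟧` -/
noncomputable def homInfG (φ : Polynomial k →+* PowerSeries (PowerSeries k)) :
    Pk k →+* LaurentSeries (KK k) :=
  (algebraMap (PowerSeries (KK k)) (LaurentSeries (KK k))).comp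
    ((PowerSeries.map (algebraMap (PowerSeries k) (KK k))).comp ((swp k).comp (ext φ)))

theorem homInfG_apply (φ : Polynomial k →+* PowerSeries (PowerSeries k)) (F : Pk k) :
    homInfG φ F = algebraMap (PowerSeries (KK k)) (LaurentSeries (KK k))
      (PowerSeries.map (algebraMap (PowerSeries k) (KK k)) (swp k (ext φ F))) := rfl

theorem homInfG_X (φ : Polynomial k →+* PowerSeries (PowerSeries k)) :
    homInfG φ PowerSeries.X = HahnSeries.C (HahnSeries.single (1 : ℤ) (1 : k) : KK k) := by
  rw [homInfG_apply, ext_X, swp_X, PowerSeries.map_C, homInf_X, homInf_C]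

theorem homInfG_C (φ : Polynomial k →+* PowerSeries (PowerSeries k))
    (hC : ∀ c, φ (Polynomial.C c) = PowerSeries.C (PowerSeries.C c)) (F : PowerSeries k) :
    homInfG φ (PowerSeries.map Polynomial.C F) =
      HahnSeries.C (algebraMap (PowerSeries k) (KK k) F) := by
  have h1 : ext φ (PowerSeries.map Polynomial.C F) = PowerSeries.map PowerSeries.C F := by
    ext n : 1
    rw [coeff_ext, Finset.sum_eq_single (n, 0)]
    · rw [PowerSeries.coeff_map, hC, PowerSeries.coeff_map, PowerSeries.coeff_zero_C]
    · rintro ⟨i, j⟩ hij hne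
      rw [Finset.HasAntidiagonal.mem_antidiagonal] at hij
      dsimp only at hij ⊢
      have hj : j ≠ 0 := by
        rintro rfl
        apply hne
        simp_all
      rw [PowerSeries.coeff_map, hC, PowerSeries.coeff_C, if_neg hj]
    · intro h
      exact absurd (by simp) h
  have h2 : swp k (PowerSeries.map PowerSeries.C F) = PowerSeries.C F := by
    ext i j
    rw [coeff_swp, PowerSeries.coeff_map, PowerSeries.coeff_C, PowerSeries.coeff_C]
    by_cases hi : i = 0 <;> simp [hi]
  rw [homInfG_apply, h1, h2, PowerSeries.map_C, homInf_C]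

theorem homInf_exists (φ : Polynomial k →+* PowerSeries (PowerSeries k))
    (hC : ∀ c, φ (Polynomial.C c) = PowerSeries.C (PowerSeries.C c))
    (hw : homInfG φ (PowerSeries.C Polynomial.X) ≠ 0) :
    ∃ h : R2 k →+* LaurentSeries (KK k), (∀ F, h (algebraMap (Pk k) (R2 k) F) = homInfG φ F) ∧
      h.comp (c2 k) = HahnSeries.C := by
  have hu : IsUnit (homInfG φ (PowerSeries.X * PowerSeries.C Polynomial.X)) := by
    rw [map_mul, homInfG_X, isUnit_iff_ne_zero]
    refine mul_ne_zero ?_ hw
    rw [Ne, map_eq_zero_iff _ HahnSeries.C_injective]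
    exact HahnSeries.single_ne_zero one_ne_zero
  refine ⟨IsLocalization.Away.lift (PowerSeries.X * PowerSeries.C Polynomial.X : Pk k) hu,
    fun F => IsLocalization.Away.lift_eq _ _ _, ?_⟩
  refine IsLocalization.ringHom_ext (Submonoid.powers (PowerSeries.X : PowerSeries k)) ?_
  ext1 F
  rw [RingHom.comp_apply, RingHom.comp_apply, RingHom.comp_apply]
  unfold c2
  rw [lK_algebraMap, RingHom.comp_apply, IsLocalization.Away.lift_eq, homInfG_C φ hC]

theorem exists_h0 :
    ∃ h : R2 k →+* LaurentSeries (KK k), Function.Injective h ∧ h.comp (c2 k) = HahnSeries.C ∧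
      h (w2 k) = HahnSeries.single 1 1 := by
  set φ : Polynomial k →+* PowerSeries (PowerSeries k) :=
    (PowerSeries.C).comp Polynomial.coeToPowerSeries.ringHom with hφ
  have hC : ∀ c, φ (Polynomial.C c) = PowerSeries.C (PowerSeries.C c) := by
    intro c
    rw [hφ, RingHom.comp_apply, Polynomial.coeToPowerSeries.ringHom_apply, Polynomial.coe_C]
  have hext : ∀ (F : Pk k) (n : ℕ), PowerSeries.coeff n (ext φ F) =
      ((PowerSeries.coeff n F : Polynomial k) : PowerSeries k) := by
    intro F n
    rw [coeff_ext, Finset.sum_eq_single (n, 0)]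
    · rw [hφ, RingHom.comp_apply, Polynomial.coeToPowerSeries.ringHom_apply,
        PowerSeries.coeff_zero_C]
    · rintro ⟨i, j⟩ hij hne
      rw [Finset.HasAntidiagonal.mem_antidiagonal] at hij
      dsimp only at hij ⊢
      have hj : j ≠ 0 := by
        rintro rfl
        apply hne
        simp_all
      rw [hφ, RingHom.comp_apply, PowerSeries.coeff_C, if_neg hj]
    · intro h
      exact absurd (by simp) h
  have hw : homInfG φ (PowerSeries.C Polynomial.X) = HahnSeries.single 1 1 := by
    rw [homInfG_apply, ext_C, hφ, RingHom.comp_apply, Polynomial.coeToPowerSeries.ringHom_apply,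
      Polynomial.coe_X, swp_C, PowerSeries.map_X, PowerSeries.map_X, homInf_X]
  have hinj : Function.Injective (homInfG φ) := by
    rw [injective_iff_map_eq_zero]
    intro F hF
    rw [homInfG_apply, map_eq_zero_iff _ homInf_algInj] at hF
    ext n : 1
    rw [map_zero]
    have h1 : ((PowerSeries.coeff n F : Polynomial k) : PowerSeries k) = 0 := by
      ext i
      rw [map_zero]
      have h2 := congrArg (PowerSeries.coeff i) hF
      rw [PowerSeries.coeff_map, map_zero, map_eq_zero_iff _ homInf_algInj] at h2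
      have h3 := congrArg (PowerSeries.coeff n) h2
      rw [coeff_swp, hext, map_zero] at h3
      exact h3
    exact Polynomial.coe_eq_zero_iff.1 h1
  obtain ⟨h, h1, h2⟩ := homInf_exists φ hC (by
    rw [hw]
    exact HahnSeries.single_ne_zero one_ne_zero)
  refine ⟨h, ?_, h2, by rw [w2, h1, hw]⟩
  rw [injective_iff_map_eq_zero]
  intro r hr
  obtain ⟨a, s, rfl⟩ := IsLocalization.exists_mk'_eq
    (Submonoid.powers (PowerSeries.X * PowerSeries.C Polynomial.X : Pk k)) r
  have h3 : h (IsLocalization.mk' (R2 k) a s) * h (algebraMap (Pk k) (R2 k) s) =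
      h (algebraMap (Pk k) (R2 k) a) := by
    rw [← map_mul, IsLocalization.mk'_spec]
  rw [hr, zero_mul, h1] at h3
  have h4 : a = 0 := hinj (h3.symm.trans (map_zero _).symm)
  rw [h4, IsLocalization.mk'_zero]

theorem exists_hA (a : ℕ) :
    ∃ h : R2 k →+* LaurentSeries (KK k), h.comp (c2 k) = HahnSeries.C ∧
      h (w2 k) = HahnSeries.C ((HahnSeries.single (1 : ℤ) (1 : k) : KK k) ^ a) *
        (HahnSeries.single (1 : ℤ) (1 : KK k) : LaurentSeries (KK k)) := by
  set φ : Polynomial k →+* PowerSeries (PowerSeries k) :=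
    Polynomial.eval₂RingHom ((PowerSeries.C).comp PowerSeries.C)
      (PowerSeries.X ^ a * PowerSeries.C PowerSeries.X) with hφ
  have hC : ∀ c, φ (Polynomial.C c) = PowerSeries.C (PowerSeries.C c) := by
    intro c
    rw [hφ, Polynomial.coe_eval₂RingHom, Polynomial.eval₂_C, RingHom.comp_apply]
  have hw : homInfG φ (PowerSeries.C Polynomial.X) =
      HahnSeries.C ((HahnSeries.single (1 : ℤ) (1 : k) : KK k) ^ a) *
        (HahnSeries.single (1 : ℤ) (1 : KK k) : LaurentSeries (KK k)) := by
    rw [homInfG_apply, ext_C, hφ, Polynomial.coe_eval₂RingHom, Polynomial.eval₂_X]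
    simp only [map_mul, map_pow, swp_X, swp_C, PowerSeries.map_X, PowerSeries.map_C, homInf_X,
      homInf_C]
  obtain ⟨h, h1, h2⟩ := homInf_exists φ hC (by
    rw [hw]
    refine mul_ne_zero ?_ (HahnSeries.single_ne_zero one_ne_zero)
    rw [Ne, map_eq_zero_iff _ HahnSeries.C_injective]
    exact pow_ne_zero _ (HahnSeries.single_ne_zero one_ne_zero))
  exact ⟨h, h2, by rw [w2, h1, hw]⟩

theorem exists_hB :
    ∃ h : R2 k →+* LaurentSeries (KK k), h.comp (c2 k) = HahnSeries.C ∧
      h (w2 k) * (1 - (HahnSeries.single (1 : ℤ) (1 : KK k) : LaurentSeries (KK k))) =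
        HahnSeries.C (HahnSeries.single (1 : ℤ) (1 : k) : KK k) *
          (HahnSeries.single (1 : ℤ) (1 : KK k) : LaurentSeries (KK k)) := by
  set φ : Polynomial k →+* PowerSeries (PowerSeries k) :=
    Polynomial.eval₂RingHom ((PowerSeries.C).comp PowerSeries.C)
      (PowerSeries.X * PowerSeries.C (PowerSeries.X * PowerSeries.mk 1)) with hφ
  have hC : ∀ c, φ (Polynomial.C c) = PowerSeries.C (PowerSeries.C c) := by
    intro c
    rw [hφ, Polynomial.coe_eval₂RingHom, Polynomial.eval₂_C, RingHom.comp_apply]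
  have hw : homInfG φ (PowerSeries.C Polynomial.X) *
      (1 - (HahnSeries.single (1 : ℤ) (1 : KK k) : LaurentSeries (KK k))) =
      HahnSeries.C (HahnSeries.single (1 : ℤ) (1 : k) : KK k) *
        (HahnSeries.single (1 : ℤ) (1 : KK k) : LaurentSeries (KK k)) := by
    have e1 : (1 - (HahnSeries.single (1 : ℤ) (1 : KK k) : LaurentSeries (KK k))) =
        algebraMap (PowerSeries (KK k)) (LaurentSeries (KK k))
          (PowerSeries.map (algebraMap (PowerSeries k) (KK k)) (swp k
            (PowerSeries.C (1 - PowerSeries.X)))) := by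
      simp only [map_sub, map_one, swp_C, PowerSeries.map_X, homInf_X]
    rw [e1, homInfG_apply, ← map_mul, ← map_mul, ← map_mul, ext_C, hφ,
      Polynomial.coe_eval₂RingHom, Polynomial.eval₂_X, mul_assoc, ← map_mul, mul_assoc,
      PowerSeries.mk_one_mul_one_sub_eq_one, mul_one]
    simp only [map_mul, swp_X, swp_C, PowerSeries.map_X, PowerSeries.map_C, homInf_X, homInf_C]
  obtain ⟨h, h1, h2⟩ := homInf_exists φ hC (by
    intro h0
    rw [h0, zero_mul] at hw
    refine mul_ne_zero ?_ (HahnSeries.single_ne_zero one_ne_zero) hw.symm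
    rw [Ne, map_eq_zero_iff _ HahnSeries.C_injective]
    exact HahnSeries.single_ne_zero one_ne_zero)
  exact ⟨h, h2, by rw [w2, h1, hw]⟩

end

end Pool.Agent.Helper54.FP
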