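import Pool.Agent.Helper54.FP.LaurentMaps
import Pool.Agent.Helper75.FP.LocalGlobal
import Pool.Agent.Helper54.PW.Basic
import Pool.Agent.Helper18.PW.Places1
import Pool.Agent.Helper51.PW.Degree
import Pool.Agent.Helper51.PW.ExistsF
import Pool.Agent.Helper51.PW.ThetaAux
import Pool.Agent.Helper79.PW.Transitive

/-!
# FP-28: local description of a cover at infinity with decomposition group of order `p`
-/

set_option autoImplicit false
set_option linter.unusedSectionVars false
open scoped Pointwise
open Pool.Agent.Helper54.PW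

namespace Pool.Agent.Helper54.FP

section nf
variable {p : ℕ} [Fact p.Prime] {k : Type} [Field k] [IsAlgClosed k] [CharP k p]

/-- positive part: solve `w^p - w = h` for a power series `h` without constant term -/
private theorem pos_part (h : PowerSeries k) (hh : PowerSeries.constantCoeff h = 0) :
    ∃ w : PowerSeries k, w ^ p - w = h := by
  have hp : p.Prime := Fact.out
  have hcp : CharP (PowerSeries k) p :=
    charP_of_injective_ringHom (f := (PowerSeries.C : k →+* PowerSeries k))
      (RingHom.injective _) p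
  let I : Ideal (PowerSeries k) := Ideal.span {PowerSeries.X}
  have hI : IsAdicComplete I (PowerSeries k) := inferInstance
  have hhI : h ∈ I := by
    rw [Ideal.mem_span_singleton, PowerSeries.X_dvd_iff]
    exact hh
  let f : Polynomial (PowerSeries k) := Polynomial.X ^ p - (Polynomial.X + Polynomial.C h)
  have hf : f.Monic := by
    apply Polynomial.monic_X_pow_sub
    rw [Polynomial.degree_X_add_C]
    exact_mod_cast hp.one_lt
  have hd : f.derivative = -1 := by
    simp only [f, Polynomial.derivative_sub, Polynomial.derivative_add, Polynomial.derivative_X,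
      Polynomial.derivative_C, Polynomial.derivative_X_pow, CharP.cast_eq_zero, map_zero,
      zero_mul, add_zero, zero_sub]
  obtain ⟨a, ha, -⟩ := HenselianRing.is_henselian (I := I) f hf 0 (by
      simp only [f, Polynomial.eval_sub, Polynomial.eval_add, Polynomial.eval_pow,
        Polynomial.eval_X, Polynomial.eval_C]
      rw [zero_pow hp.ne_zero, zero_add, zero_sub]
      exact I.neg_mem hhI) (by
      rw [hd]
      apply IsUnit.map
      rw [Polynomial.eval_neg, Polynomial.eval_one]
      exact isUnit_one.neg)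
  refine ⟨a, ?_⟩
  have h1 : f.eval a = 0 := ha
  simp only [f, Polynomial.eval_sub, Polynomial.eval_add, Polynomial.eval_pow,
    Polynomial.eval_X, Polynomial.eval_C] at h1
  linear_combination h1

/-- negative part: normal form of a polynomial modulo `r^p - r` -/
private theorem neg_part : ∀ (n : ℕ) (g : Polynomial k), g.natDegree ≤ n →
    ∃ f r : Polynomial k, g = f + (r ^ p - r) ∧ (f = 0 ∨ (0 < f.natDegree ∧ ¬ p ∣ f.natDegree)) := by
  have hp : p.Prime := Fact.out
  have hcp : CharP (Polynomial k) p := inferInstance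
  intro n
  induction n using Nat.strong_induction_on with
  | _ n ih =>
  intro g hg
  by_cases h0 : g.natDegree = 0
  · obtain ⟨c, rfl⟩ := Polynomial.natDegree_eq_zero.1 h0
    obtain ⟨s, hs⟩ := wp_surj_sep (p := p) c
    rw [wp_apply] at hs
    refine ⟨0, Polynomial.C s, ?_, Or.inl rfl⟩
    rw [zero_add, ← map_pow, ← map_sub, hs]
  by_cases h1 : p ∣ g.natDegree
  · obtain ⟨m, hm⟩ := h1
    obtain ⟨b, hb⟩ := IsAlgClosed.exists_pow_nat_eq g.leadingCoeff hp.pos
    have hm0 : 0 < m := by
      rcases Nat.eq_zero_or_pos m with h | h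
      · subst h
        rw [mul_zero] at hm
        exact absurd hm h0
      · exact h
    let q : Polynomial k := Polynomial.monomial m b
    have hq : q ^ p = Polynomial.monomial g.natDegree g.leadingCoeff := by
      rw [Polynomial.monomial_pow, hb, hm, mul_comm]
    have hg0 : g ≠ 0 := by
      rintro rfl
      simp at h0
    have hdeg : (g - q ^ p + q).natDegree < g.natDegree := by
      have e1 : (g - q ^ p).natDegree < g.natDegree := by
        rw [hq]
        have e2 : g - Polynomial.monomial g.natDegree g.leadingCoeff = g.eraseLead := by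
          rw [sub_eq_iff_eq_add, Polynomial.eraseLead_add_monomial_natDegree_leadingCoeff]
        rw [e2]
        rcases g.eraseLead_natDegree_lt_or_eraseLead_eq_zero with e3 | e3
        · exact e3
        · rw [e3, Polynomial.natDegree_zero]
          omega
      have e4 : q.natDegree < g.natDegree := by
        refine lt_of_le_of_lt (Polynomial.natDegree_monomial_le _) ?_
        rw [hm]
        have := hp.one_lt
        nlinarith
      exact lt_of_le_of_lt (Polynomial.natDegree_add_le _ _) (max_lt e1 e4)
    obtain ⟨f, r, e, hf⟩ := ih (g - q ^ p + q).natDegree (lt_of_lt_of_le hdeg hg) _ le_rfl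
    refine ⟨f, r + q, ?_, hf⟩
    rw [add_pow_char]
    linear_combination e
  · refine ⟨g, 0, ?_, Or.inr ⟨Nat.pos_of_ne_zero h0, h1⟩⟩
    rw [zero_pow hp.ne_zero, sub_zero, add_zero]

/-- a Laurent series is the sum of a polynomial in `1/x` and a power series without constant term -/
private theorem split_laurent (m : LaurentSeries k) :
    ∃ (g : Polynomial k) (h : PowerSeries k), PowerSeries.constantCoeff h = 0 ∧
      m = px k g + algebraMap (PowerSeries k) (LaurentSeries k) h := by
  classical
  obtain ⟨N, hN⟩ : ∃ N : ℕ, ∀ n : ℤ, n < -(N : ℤ) → m.coeff n = 0 := by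
    refine ⟨m.order.natAbs, fun n hn => ?_⟩
    apply HahnSeries.coeff_eq_zero_of_lt_order
    omega
  refine ⟨∑ n ∈ Finset.range (N + 1), Polynomial.monomial n (m.coeff (-(n : ℤ))),
    PowerSeries.mk (fun n => if n = 0 then 0 else m.coeff (n : ℤ)), ?_, ?_⟩
  · rw [← PowerSeries.coeff_zero_eq_constantCoeff_apply, PowerSeries.coeff_mk, if_pos rfl]
  · ext n
    rw [HahnSeries.coeff_add, px_coeff]
    have e1 : (algebraMap (PowerSeries k) (LaurentSeries k)
        (PowerSeries.mk (fun n => if n = 0 then 0 else m.coeff (n : ℤ)))).coeff n =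
        if 0 < n then m.coeff n else 0 := by
      rw [algebraMap_coeff, PowerSeries.coeff_mk]
      by_cases hn : 0 < n
      · rw [if_neg (by omega), if_neg (by omega), if_pos hn]
        congr 1
        omega
      · rw [if_neg hn]
        by_cases hn2 : n < 0
        · rw [if_pos hn2]
        · rw [if_neg hn2, if_pos (by omega)]
    rw [e1]
    by_cases hn : n ≤ 0
    · obtain ⟨j, hj⟩ := Int.eq_ofNat_of_zero_le (show 0 ≤ -n by omega)
      have hn' : n = -(j : ℤ) := by omega
      subst hn'
      rw [if_pos hn, if_neg (by omega), add_zero, Polynomial.finsetSum_coeff]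
      simp only [neg_neg, Int.toNat_natCast, Polynomial.coeff_monomial]
      by_cases hj2 : j < N + 1
      · rw [Finset.sum_ite_eq_of_mem' _ _ _ (Finset.mem_range.2 hj2)]
      · rw [Finset.sum_eq_zero, hN _ (by omega)]
        intro b hb
        rw [Finset.mem_range] at hb
        rw [if_neg (by omega)]
    · rw [if_neg hn, if_pos (by omega), zero_add]

/-- Artin-Schreier normal form over `k((x))` -/
theorem as_normal_form (m : LaurentSeries k) :
    ∃ (f : Polynomial k) (w : LaurentSeries k), m = px k f + (w ^ p - w) ∧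
      (f = 0 ∨ (0 < f.natDegree ∧ ¬ p ∣ f.natDegree)) := by
  have hcp : CharP (LaurentSeries k) p := inferInstance
  obtain ⟨g, h, hh, hm⟩ := split_laurent m
  obtain ⟨w, hw⟩ := pos_part (p := p) h hh
  obtain ⟨f, r, hf, hf'⟩ := neg_part (p := p) g.natDegree g le_rfl
  refine ⟨f, px k r + algebraMap (PowerSeries k) (LaurentSeries k) w, ?_, hf'⟩
  rw [add_pow_char, hm, hf, ← hw]
  simp only [map_add, map_sub, map_pow]
  ring

end nf


section aux
variable {p : ℕ} [Fact p.Prime]

/-- additive Hilbert 90 for an automorphism of order `p` -/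
private theorem exists_as_gen {M L : Type} [Field M] [Field L] [Algebra M L] [CharP L p]
    (τ : L ≃ₐ[M] L) (hτ : orderOf τ = p) : ∃ v : L, τ v = v + 1 := by
  classical
  have hp : p.Prime := Fact.out
  -- element with nonzero trace
  have hinj : Function.Injective (fun n : Fin p => ((τ ^ (n : ℕ) : L ≃ₐ[M] L) : L →* L)) := by
    intro a b hab
    have h1 : τ ^ (a : ℕ) = τ ^ (b : ℕ) := by
      apply AlgEquiv.ext
      intro x
      exact DFunLike.congr_fun hab x
    have h2 := pow_injOn_Iio_orderOf (x := τ) (by rw [hτ]; exact a.2) (by rw [hτ]; exact b.2) h1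
    exact Fin.ext h2
  have hli : LinearIndependent L (fun n : Fin p => (((τ ^ (n : ℕ) : L ≃ₐ[M] L) : L →* L) : L → L)) :=
    (linearIndependent_monoidHom L L).comp _ hinj
  have hne : ∃ c : L, (∑ n : Fin p, (τ ^ (n : ℕ)) c) ≠ 0 := by
    by_contra hcon
    push Not at hcon
    have h1 := (Fintype.linearIndependent_iff.1 hli) (fun _ => 1) (by
      funext c
      simpa using hcon c) ⟨0, hp.pos⟩
    exact one_ne_zero h1
  obtain ⟨c, hc⟩ := hne
  set t : L := ∑ n ∈ Finset.range p, (τ ^ n) c with ht
  have ht0 : t ≠ 0 := by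
    rw [ht, ← Fin.sum_univ_eq_sum_range (fun n => (τ ^ n) c)]
    exact hc
  have hτt : τ t = t := by
    rw [ht, map_sum]
    have h1 : ∀ n, τ ((τ ^ n) c) = (τ ^ (n + 1)) c := by
      intro n
      rw [pow_succ']
      rfl
    simp only [h1]
    have h2 := Finset.sum_range_succ' (fun n => (τ ^ n) c) p
    have h3 := Finset.sum_range_succ (fun n => (τ ^ n) c) p
    have h4 : (τ ^ p) c = (τ ^ 0) c := by
      rw [← hτ, pow_orderOf_eq_one, pow_zero]
    rw [h4] at h3
    have h5 := h2.symm.trans h3
    exact add_right_cancel h5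
  set b : L := c / t with hb
  have hbt : ∑ n ∈ Finset.range p, (τ ^ n) b = 1 := by
    have h1 : ∀ n, (τ ^ n) b = (τ ^ n) c / t := by
      intro n
      rw [hb, map_div₀]
      congr 1
      induction n with
      | zero => rfl
      | succ n ih => rw [pow_succ', AlgEquiv.mul_apply, ih, hτt]
    simp only [h1]
    rw [← Finset.sum_div, ← ht, div_self ht0]
  refine ⟨- ∑ n ∈ Finset.range p, (n : L) * (τ ^ n) b, ?_⟩
  have h1 : ∀ n : ℕ, τ ((n : L) * (τ ^ n) b) = (n : L) * (τ ^ (n + 1)) b := by
    intro n
    rw [map_mul, map_natCast, pow_succ']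
    rfl
  rw [map_neg, map_sum]
  simp only [h1]
  have h2 : ∀ n : ℕ, (n : L) * (τ ^ (n + 1)) b = ((n + 1 : ℕ) : L) * (τ ^ (n + 1)) b -
      (τ ^ (n + 1)) b := by
    intro n
    push_cast
    ring
  simp only [h2]
  rw [Finset.sum_sub_distrib]
  have h3 := Finset.sum_range_succ' (fun n => ((n : ℕ) : L) * (τ ^ n) b) p
  have h4 := Finset.sum_range_succ (fun n => ((n : ℕ) : L) * (τ ^ n) b) p
  have h5 := Finset.sum_range_succ' (fun n => (τ ^ n) b) p
  have h6 := Finset.sum_range_succ (fun n => (τ ^ n) b) p
  have h7 : (τ ^ p) b = (τ ^ 0) b := by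
    rw [← hτ, pow_orderOf_eq_one, pow_zero]
  have h8 : ((p : ℕ) : L) = 0 := CharP.cast_eq_zero L p
  rw [h8] at h4
  rw [h7, hbt] at h6
  simp only [Nat.cast_zero, zero_mul, add_zero] at h3 h4
  have h9 : ∑ n ∈ Finset.range p, (τ ^ (n + 1)) b = 1 := by
    have := h5.symm.trans h6
    exact add_right_cancel this
  rw [h9, ← h3, h4]
  ring

/-- the valuation ring of power series -/
private noncomputable def VK (k : Type) [Field k] : ValuationSubring (LaurentSeries k) :=
  (Valued.v : Valuation (LaurentSeries k) (WithZero (Multiplicative ℤ))).valuationSubring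

private theorem mem_VK {k : Type} [Field k] (f : LaurentSeries k) :
    f ∈ VK k ↔ ∃ g : PowerSeries k, algebraMap (PowerSeries k) (LaurentSeries k) g = f := by
  rw [VK, Valuation.mem_valuationSubring_iff, LaurentSeries.val_le_one_iff_eq_coe]
  rfl

private theorem rx_poly {k : Type} [Field k] (q : Polynomial k) :
    rx k (algebraMap (Polynomial k) (RatFunc k) q) = px k q := by
  rw [rx]
  exact RatFunc.liftRingHom_algebraMap _ _ _

private theorem rx_C {k : Type} [Field k] (c : k) :
    rx k (algebraMap k (RatFunc k) c) = HahnSeries.C c := by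
  rw [IsScalarTower.algebraMap_apply k (Polynomial k) (RatFunc k), rx_poly]
  simp [px]

private theorem rx_X {k : Type} [Field k] :
    rx k RatFunc.X = HahnSeries.single (-1 : ℤ) (1 : k) := by
  rw [← RatFunc.algebraMap_X, rx_poly]
  simp [px]

/-- existence of an embedding compatible with the given place -/
private theorem exists_embedding {k L : Type} [Field k] [IsAlgClosed k] [Field L]
    [Algebra (RatFunc k) L] [FiniteDimensional (RatFunc k) L] [IsGalois (RatFunc k) L]
    (A : ValuationSubring L) (hA : A ≠ ⊤)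
    (hAk : ∀ c : k, algebraMap (RatFunc k) L (algebraMap k (RatFunc k) c) ∈ A)
    (hX : tX k L ∉ A) (Ω : Type) [Field Ω] [IsAlgClosed Ω] (i : LaurentSeries k →+* Ω) :
    ∃ (j : L →+* Ω) (B : ValuationSubring Ω),
      (∀ r : RatFunc k, j (algebraMap (RatFunc k) L r) = i (rx k r)) ∧
      (∀ f : LaurentSeries k, i f ∈ B ↔
        ∃ g : PowerSeries k, algebraMap (PowerSeries k) (LaurentSeries k) g = f) ∧
      B.comap j = A := by
  let _ : Algebra (LaurentSeries k) Ω := i.toAlgebra
  let _ : Algebra k Ω := (i.comp (algebraMap k (LaurentSeries k))).toAlgebra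
  have : @IsScalarTower k (LaurentSeries k) Ω Algebra.toSMul Algebra.toSMul Algebra.toSMul :=
    IsScalarTower.of_algebraMap_eq (fun x => rfl)
  have hV : IsPlace k (VK k) := by
    refine ⟨fun h => ?_, fun c => ?_⟩
    · have h1 : (HahnSeries.single (-1 : ℤ) (1 : k) : LaurentSeries k) ∈ VK k := by
        rw [h]; trivial
      obtain ⟨g, hg⟩ := (mem_VK _).1 h1
      have h2 := congrArg (fun f : LaurentSeries k => f.coeff (-1)) hg
      simp only [algebraMap_coeff, HahnSeries.coeff_single_same] at h2
      rw [if_pos (by omega)] at h2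
      exact zero_ne_one h2
    · rw [mem_VK]
      refine ⟨algebraMap k (PowerSeries k) c, ?_⟩
      rw [LaurentSeries.coe_algebraMap]
      exact (HahnSeries.algebraMap_apply' ℤ c).symm
  obtain ⟨B, hB, hBV⟩ := exists_place_extension (Ω := Ω) (VK k) hV
  have hB' : ∀ f : LaurentSeries k, i f ∈ B ↔
      ∃ g : PowerSeries k, algebraMap (PowerSeries k) (LaurentSeries k) g = f := by
    intro f
    rw [← mem_VK, ← hBV]
    rfl
  let _ : Algebra (RatFunc k) Ω := (i.comp (rx k)).toAlgebra
  let j0 : L →ₐ[RatFunc k] Ω := IsAlgClosed.lift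
  have hj0 : ∀ r : RatFunc k, j0 (algebraMap (RatFunc k) L r) = i (rx k r) := fun r => j0.commutes r
  let _ : Algebra k L := ((algebraMap (RatFunc k) L).comp (algebraMap k (RatFunc k))).toAlgebra
  have : IsScalarTower k (RatFunc k) L := IsScalarTower.of_algebraMap_eq (fun x => rfl)
  have hFF : FF k L := ff_of_algebraic k L
  have hX' : tX k L ∉ B.comap (j0 : L →+* Ω) := by
    intro h
    rw [ValuationSubring.mem_comap] at h
    have h1 : i (HahnSeries.single (-1 : ℤ) (1 : k)) ∈ B := by
      rw [← rx_X, ← hj0]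
      exact h
    obtain ⟨g, hg⟩ := (hB' _).1 h1
    have h2 := congrArg (fun f : LaurentSeries k => f.coeff (-1)) hg
    simp only [algebraMap_coeff, HahnSeries.coeff_single_same] at h2
    rw [if_pos (by omega)] at h2
    exact zero_ne_one h2
  have hk' : ∀ c : k, algebraMap k L c ∈ B.comap (j0 : L →+* Ω) := by
    intro c
    rw [ValuationSubring.mem_comap]
    have h1 : (j0 : L →+* Ω) (algebraMap k L c) = i (HahnSeries.C c) := by
      rw [← rx_C]
      exact hj0 _
    rw [h1, hB']
    exact ⟨PowerSeries.C c, algebraMap_C_eq c⟩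
  have hpl : IsPlace k A := ⟨hA, hAk⟩
  have hpl' : IsPlace k (B.comap (j0 : L →+* Ω)) := by
    refine ⟨fun h => ?_, hk'⟩
    apply hX'
    rw [h]
    trivial
  obtain ⟨σ, hσ⟩ := places_transitive (M := RatFunc k) hFF A (B.comap (j0 : L →+* Ω)) hpl hpl' (by
    ext r
    rw [ValuationSubring.mem_comap, ValuationSubring.mem_comap,
      (mem_place_iff A hAk hX r).1, (mem_place_iff _ hk' hX' r).1])
  refine ⟨(j0 : L →+* Ω).comp (σ : L →+* L), B, fun r => ?_, hB', ?_⟩
  · rw [RingHom.comp_apply]
    have h1 : (σ : L →+* L) (algebraMap (RatFunc k) L r) = algebraMap (RatFunc k) L r :=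
      σ.commutes r
    rw [h1]
    exact hj0 r
  · ext x
    have h1 : x ∈ B.comap ((j0 : L →+* Ω).comp (σ : L →+* L)) ↔ σ x ∈ B.comap (j0 : L →+* Ω) :=
      Iff.rfl
    rw [h1, ← hσ, mem_smul_iff']
    have h2 : σ⁻¹ (σ x) = x := σ.symm_apply_apply x
    rw [h2]

end aux

theorem exists_local {p : ℕ} [Fact p.Prime] {k L : Type} [Field k] [IsAlgClosed k] [CharP k p]
    [Field L] [Algebra (RatFunc k) L] [FiniteDimensional (RatFunc k) L] [IsGalois (RatFunc k) L]
    (τ : L ≃ₐ[RatFunc k] L) (hτ : orderOf τ = p) (A : ValuationSubring L) (hA : A ≠ ⊤)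
    (hAk : ∀ c : k, algebraMap (RatFunc k) L (algebraMap k (RatFunc k) c) ∈ A) (hX : tX k L ∉ A)
    (hst : ∀ σ : L ≃ₐ[RatFunc k] L, σ • A = A ↔ σ ∈ Subgroup.zpowers τ) :
    ∃ (Ω : Type) (_ : Field Ω) (i : LaurentSeries k →+* Ω) (j : L →+* Ω) (f : Polynomial k)
      (u : Ω), (∀ r : RatFunc k, j (algebraMap (RatFunc k) L r) = i (rx k r)) ∧
      0 < f.natDegree ∧ ¬ p ∣ f.natDegree ∧ u ^ p - u = i (px k f) ∧
      ∀ y : L, ∃ P : Polynomial (LaurentSeries k), j y = P.eval₂ i u ∧
        j (τ y) = P.eval₂ i (u + 1) := by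
  classical
  have hp : p.Prime := Fact.out
  have hcK : CharP (LaurentSeries k) p := inferInstance
  let Ω : Type := AlgebraicClosure (LaurentSeries k)
  let i : LaurentSeries k →+* Ω := algebraMap (LaurentSeries k) Ω
  have hcΩ : CharP Ω p := charP_of_injective_ringHom (f := i) i.injective p
  have hcL : CharP L p := charP_of_injective_ringHom
    (f := (algebraMap (RatFunc k) L).comp (algebraMap k (RatFunc k))) (RingHom.injective _) p
  obtain ⟨j, B, hj, hB, hBA⟩ := exists_embedding A hA hAk hX Ω i
  have hlg : ∀ σ : L ≃ₐ[RatFunc k] L, σ ∈ Subgroup.zpowers τ ↔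
      ∀ y : L, j y ∈ Set.range i → σ y = y := by
    intro σ
    rw [← hst, ← hBA]
    exact local_global i j hj B hB σ
  -- the intermediate field
  let M : IntermediateField (RatFunc k) L :=
    { carrier := {y | j y ∈ i.fieldRange}
      mul_mem' := fun {a b} ha hb => by
        change j (a * b) ∈ i.fieldRange
        rw [map_mul]
        exact mul_mem ha hb
      add_mem' := fun {a b} ha hb => by
        change j (a + b) ∈ i.fieldRange
        rw [map_add]
        exact add_mem ha hb
      algebraMap_mem' := fun r => ⟨rx k r, (hj r).symm⟩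
      inv_mem' := fun a ha => by
        change j a⁻¹ ∈ i.fieldRange
        rw [map_inv₀]
        exact inv_mem ha }
  have hM : ∀ y : L, y ∈ M ↔ j y ∈ Set.range i := fun y => Iff.rfl
  have hfix : M.fixingSubgroup = Subgroup.zpowers τ := by
    ext σ
    rw [hlg, IntermediateField.mem_fixingSubgroup_iff]
    exact Iff.rfl
  have hτM : ∀ y : L, τ y = y → y ∈ M := by
    intro y hy
    have h1 := IsGalois.fixedField_fixingSubgroup M
    rw [← h1, IntermediateField.mem_fixedField_iff]
    intro σ hσ
    rw [hfix] at hσ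
    obtain ⟨n, rfl⟩ := Subgroup.mem_zpowers_iff.1 hσ
    have h2 : τ ∈ MulAction.stabilizer (L ≃ₐ[RatFunc k] L) y := hy
    exact (MulAction.stabilizer (L ≃ₐ[RatFunc k] L) y).zpow_mem h2 n
  have hMτ : ∀ y ∈ M, τ y = y := fun y hy => (hlg τ).1 (Subgroup.mem_zpowers τ) y hy
  obtain ⟨v, hv⟩ := exists_as_gen (p := p) τ hτ
  have hm : v ^ p - v ∈ M := by
    apply hτM
    rw [map_sub, map_pow, hv, add_pow_char, one_pow]
    ring
  obtain ⟨m, hm'⟩ := hm
  obtain ⟨f, w, hfw, hf⟩ := as_normal_form (p := p) m
  have hu : (j v - i w) ^ p - (j v - i w) = i (px k f) := by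
    rw [sub_pow_char]
    have h1 : j v ^ p - j v = i m := by
      rw [← map_pow, ← map_sub]; exact hm'.symm
    have h2 : i m = i (px k f) + (i w ^ p - i w) := by
      rw [hfw, map_add, map_sub, map_pow]
    linear_combination h1 + h2
  have hf' : 0 < f.natDegree ∧ ¬ p ∣ f.natDegree := by
    rcases hf with hf | hf
    · exfalso
      subst hf
      rw [map_zero, map_zero] at hu
      have h1 : ∏ c : ZMod p, ((j v - i w) - ZMod.castHom (dvd_refl p) Ω c) = 0 := by
        rw [prod_sub_castHom, wp_apply]
        exact hu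
      obtain ⟨c, -, hc⟩ := Finset.prod_eq_zero_iff.1 h1
      have h2 : v ∈ M := by
        refine ⟨w + ZMod.castHom (dvd_refl p) (LaurentSeries k) c, ?_⟩
        rw [map_add, castHom_map]
        linear_combination -hc
      have h3 := hMτ v h2
      rw [hv] at h3
      exact one_ne_zero (add_eq_left.1 h3)
    · exact hf
  refine ⟨Ω, inferInstance, i, j, f, j v - i w, hj, hf'.1, hf'.2, hu, ?_⟩
  -- the field is generated by v over M
  have htop : IntermediateField.adjoin M {v} = ⊤ := by
    rw [← IsGalois.fixedField_fixingSubgroup (IntermediateField.adjoin M {v})]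
    have h1 : (IntermediateField.adjoin M {v}).fixingSubgroup = ⊥ := by
      rw [eq_bot_iff]
      intro σ hσ
      rw [Subgroup.mem_bot]
      rw [IntermediateField.mem_fixingSubgroup_iff] at hσ
      have h2 : σ v = v := hσ v (IntermediateField.mem_adjoin_simple_self M v)
      have h3 : (σ.restrictScalars (RatFunc k)) ∈ Subgroup.zpowers τ := by
        rw [← hfix, IntermediateField.mem_fixingSubgroup_iff]
        intro x hx
        exact σ.commutes ⟨x, hx⟩
      have hfin : IsOfFinOrder τ := orderOf_pos_iff.1 (by rw [hτ]; exact hp.pos)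
      obtain ⟨n, hn⟩ := (hfin.mem_powers_iff_mem_zpowers.2 h3)
      simp only at hn
      have h4 : ∀ n : ℕ, (τ ^ n) v = v + n := by
        intro n
        induction n with
        | zero => simp
        | succ n ih =>
          rw [pow_succ', AlgEquiv.mul_apply, ih, map_add, map_natCast, hv]
          push_cast
          ring
      have h5 : (τ ^ n) v = v := by
        rw [hn]; exact h2
      rw [h4, add_eq_left, CharP.cast_eq_zero_iff L p] at h5
      obtain ⟨d, rfl⟩ := h5
      rw [pow_mul, ← hτ, pow_orderOf_eq_one, one_pow] at hn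
      apply AlgEquiv.ext
      intro x
      exact (DFunLike.congr_fun hn x).symm
    rw [h1]
    exact IntermediateField.fixedField_bot
  have hpoly : ∀ Q : Polynomial M, ∃ P : Polynomial (LaurentSeries k), ∀ t : Ω,
      Q.eval₂ (j.comp (algebraMap M L)) t = P.eval₂ i t := by
    intro Q
    induction Q using Polynomial.induction_on' with
    | add Q1 Q2 h1 h2 =>
      obtain ⟨P1, h1⟩ := h1
      obtain ⟨P2, h2⟩ := h2
      refine ⟨P1 + P2, fun t => ?_⟩
      rw [Polynomial.eval₂_add, Polynomial.eval₂_add, h1, h2]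
    | monomial n a =>
      obtain ⟨a', ha'⟩ := (hM a).1 a.2
      refine ⟨Polynomial.monomial n a', fun t => ?_⟩
      rw [Polynomial.eval₂_monomial, Polynomial.eval₂_monomial, ha']
      rfl
  intro y
  have hy : y ∈ IntermediateField.adjoin M {v} := by rw [htop]; trivial
  have hint : IsIntegral M v := Algebra.IsIntegral.isIntegral v
  rw [← IntermediateField.mem_toSubalgebra,
    IntermediateField.adjoin_simple_toSubalgebra_of_isAlgebraic hint.isAlgebraic,
    Algebra.adjoin_singleton_eq_range_aeval] at hy
  obtain ⟨Q, hQ⟩ := hy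
  obtain ⟨P, hP⟩ := hpoly Q
  have hQ' : Q.eval₂ (algebraMap M L) v = y := hQ
  refine ⟨P.comp (Polynomial.X + Polynomial.C w), ?_, ?_⟩
  · rw [Polynomial.eval₂_comp, Polynomial.eval₂_add, Polynomial.eval₂_X, Polynomial.eval₂_C,
      sub_add_cancel, ← hP, ← hQ', Polynomial.hom_eval₂]
  · rw [Polynomial.eval₂_comp, Polynomial.eval₂_add, Polynomial.eval₂_X, Polynomial.eval₂_C,
      ← hP, ← hQ']
    have h1 : τ (Q.eval₂ (algebraMap M L) v) = Q.eval₂ (algebraMap M L) (v + 1) := by
      have h2 : (τ : L →+* L) (Q.eval₂ (algebraMap M L) v) =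
          Q.eval₂ ((τ : L →+* L).comp (algebraMap M L)) ((τ : L →+* L) v) :=
        Polynomial.hom_eval₂ _ _ _ _
      have h3 : (τ : L →+* L).comp (algebraMap M L) = algebraMap M L := by
        ext x
        exact hMτ x x.2
      rw [h3] at h2
      have h4 : (τ : L →+* L) v = v + 1 := hv
      rw [h4] at h2
      exact h2
    rw [h1, Polynomial.hom_eval₂, map_add, map_one]
    congr 1
    ring

end Pool.Agent.Helper54.FP
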